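import Pool.Agent.D0H86.PW.Stm

/-! Project PW (helper86), module IM: few pairs have the same sum. -/

set_option autoImplicit false

namespace Pool.Agent.D0H42.PW

open Finset
open Pool.Agent.D0H86.PW

/-- **IM** -/
theorem t_IM : S_IM := by
  intro b hb F hF
  have hmono : StrictMono b := by
    apply strictMono_nat_of_lt_succ
    intro k
    exact (hb k).2.trans_le (hb (k + 1)).1
  apply Finset.card_le_mul_card_image
  intro t _
  have hinj : Set.InjOn (fun p : ℕ × ℕ => p.1) ((F.filter fun p => b p.1 + b p.2 = t : Finset (ℕ × ℕ)) : Set (ℕ × ℕ)) := by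
    intro p hp q hq h
    rw [Finset.mem_coe, Finset.mem_filter] at hp hq
    have h' : p.1 = q.1 := h
    have h1 := hp.2
    have h2 := hq.2
    rw [h'] at h1
    have h3 : p.2 = q.2 := hmono.injective (by omega)
    exact Prod.ext h' h3
  rw [← Finset.card_image_of_injOn hinj]
  have hsub : (F.filter fun p => b p.1 + b p.2 = t).image (fun p : ℕ × ℕ => p.1) ⊆
      {Nat.log 2 t - 1, Nat.log 2 t} := by
    intro y hy
    rw [Finset.mem_image] at hy
    obtain ⟨p, hp, rfl⟩ := hy
    rw [Finset.mem_filter] at hp
    have h1 := hp.2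
    have h2 := hF p hp.1
    have h3 := hmono.monotone h2
    have h4 := hb p.1
    have h5 : p.1 ≤ Nat.log 2 t := by
      apply Nat.le_log_of_pow_le (by norm_num)
      omega
    have h6 : Nat.log 2 t < p.1 + 2 := by
      have h8 : 2 ^ (p.1 + 2) = 2 * 2 ^ (p.1 + 1) := by ring
      have h9 : 0 < 2 ^ p.1 := by positivity
      apply Nat.log_lt_of_lt_pow
      · omega
      · omega
    rw [Finset.mem_insert, Finset.mem_singleton]
    omega
  exact (Finset.card_le_card hsub).trans Finset.card_le_two

end Pool.Agent.D0H42.PW
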