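import Pool.Agent.D0H86.PW.Stm

/-! Project PW (helper86), module N3: many shifts. -/

set_option autoImplicit false

namespace Pool.Agent.D0H42.PW

open Finset Filter
open Pool.Agent.D0H86.PW

open Classical in
/-- the indicator function -/
noncomputable def ff (T s : ℕ) : ℝ := if (T + s).Prime then 1 else 0

theorem hit_single (u H s : ℕ) : hit u H {s} = (Ico (2 ^ u) (2 ^ u + H)).filter (fun T => (T + s).Prime) := by
  classical
  unfold hit
  apply Finset.filter_congr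
  intro T _
  simp

theorem card_hit (u H s : ℕ) : ((hit u H {s}).card : ℝ) = ∑ T ∈ Ico (2 ^ u) (2 ^ u + H), ff T s := by
  classical
  rw [hit_single, Finset.card_filter]
  push_cast
  apply Finset.sum_congr rfl
  intro T _
  unfold ff
  rfl

theorem card_inter (u H s s' : ℕ) : (((hit u H {s}) ∩ (hit u H {s'})).card : ℝ) =
    ∑ T ∈ Ico (2 ^ u) (2 ^ u + H), ff T s * ff T s' := by
  classical
  rw [hit_single, hit_single, ← Finset.filter_and, Finset.card_filter]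
  push_cast
  apply Finset.sum_congr rfl
  intro T _
  unfold ff
  by_cases h1 : (T + s).Prime <;> by_cases h2 : (T + s').Prime <;> simp [h1, h2]

theorem cs (u H : ℕ) (S : Finset ℕ) (B : ℝ) (hB : 0 ≤ B)
    (h : ∀ s ∈ S, ∀ s' ∈ S, s ≠ s' → (((hit u H {s}) ∩ (hit u H {s'})).card : ℝ) ≤ B) :
    (∑ s ∈ S, ((hit u H {s}).card : ℝ)) ^ 2 ≤
      (hit u H S).card * ((∑ s ∈ S, ((hit u H {s}).card : ℝ)) + (S.card : ℝ) ^ 2 * B) := by
  classical
  obtain ⟨I, hI⟩ : ∃ I, I = Ico (2 ^ u) (2 ^ u + H) := ⟨_, rfl⟩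
  have e1 : ∑ s ∈ S, ((hit u H {s}).card : ℝ) = ∑ T ∈ I, ∑ s ∈ S, ff T s := by
    rw [Finset.sum_comm]
    apply Finset.sum_congr rfl
    intro s _
    rw [card_hit, hI]
  have hsub : hit u H S ⊆ I := by
    rw [hI]
    unfold hit
    exact Finset.filter_subset _ _
  have e2 : ∑ T ∈ I, ∑ s ∈ S, ff T s = ∑ T ∈ hit u H S, ∑ s ∈ S, ff T s := by
    symm
    apply Finset.sum_subset hsub
    intro T hT hT'
    apply Finset.sum_eq_zero
    intro s hs
    unfold ff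
    rw [if_neg]
    intro hp
    apply hT'
    unfold hit
    rw [Finset.mem_filter, ← hI]
    exact ⟨hT, s, hs, hp⟩
  have e3 : ∑ T ∈ I, (∑ s ∈ S, ff T s) ^ 2 =
      ∑ s ∈ S, ∑ s' ∈ S, (((hit u H {s}) ∩ (hit u H {s'})).card : ℝ) := by
    have : ∀ T ∈ I, (∑ s ∈ S, ff T s) ^ 2 = ∑ s ∈ S, ∑ s' ∈ S, ff T s * ff T s' := by
      intro T _
      rw [sq, Finset.sum_mul_sum]
    rw [Finset.sum_congr rfl this, Finset.sum_comm]
    apply Finset.sum_congr rfl
    intro s _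
    rw [Finset.sum_comm]
    apply Finset.sum_congr rfl
    intro s' _
    rw [card_inter, hI]
  have e4 : ∑ s ∈ S, ∑ s' ∈ S, (((hit u H {s}) ∩ (hit u H {s'})).card : ℝ) ≤
      (∑ s ∈ S, ((hit u H {s}).card : ℝ)) + (S.card : ℝ) ^ 2 * B := by
    have : ∀ s ∈ S, ∑ s' ∈ S, (((hit u H {s}) ∩ (hit u H {s'})).card : ℝ) ≤
        ((hit u H {s}).card : ℝ) + S.card * B := by
      intro s hs
      rw [← Finset.add_sum_erase S _ hs, Finset.inter_self]
      apply add_le_add le_rfl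
      calc ∑ s' ∈ S.erase s, (((hit u H {s}) ∩ (hit u H {s'})).card : ℝ) ≤ ∑ s' ∈ S.erase s, B := by
            apply Finset.sum_le_sum
            intro s' hs'
            rw [Finset.mem_erase] at hs'
            exact h s hs s' hs'.2 (Ne.symm hs'.1)
        _ = (S.erase s).card * B := by rw [Finset.sum_const, nsmul_eq_mul]
        _ ≤ S.card * B := by
            apply mul_le_mul_of_nonneg_right _ hB
            exact_mod_cast Finset.card_le_card (Finset.erase_subset s S)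
    refine (Finset.sum_le_sum this).trans (le_of_eq ?_)
    rw [Finset.sum_add_distrib, Finset.sum_const, nsmul_eq_mul]
    ring
  have e5 : ∑ T ∈ hit u H S, (∑ s ∈ S, ff T s) ^ 2 ≤ ∑ T ∈ I, (∑ s ∈ S, ff T s) ^ 2 :=
    Finset.sum_le_sum_of_subset_of_nonneg hsub (fun T _ _ => sq_nonneg _)
  calc (∑ s ∈ S, ((hit u H {s}).card : ℝ)) ^ 2 = (∑ T ∈ hit u H S, ∑ s ∈ S, ff T s) ^ 2 := by rw [e1, e2]
    _ ≤ (hit u H S).card * ∑ T ∈ hit u H S, (∑ s ∈ S, ff T s) ^ 2 := sq_sum_le_card_mul_sum_sq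
    _ ≤ (hit u H S).card * ((∑ s ∈ S, ((hit u H {s}).card : ℝ)) + (S.card : ℝ) ^ 2 * B) := by
        apply mul_le_mul_of_nonneg_left _ (Nat.cast_nonneg _)
        exact e5.trans (e3.le.trans e4)

theorem fin_ineq (A A₀ B h h0 : ℝ) (hA : A₀ ≤ A) (hA0 : 0 < A₀) (hB : 0 ≤ B) (hh0 : 0 ≤ h0)
    (h1 : A ^ 2 ≤ h * (A + B)) (h2 : h0 * (A₀ + B) ≤ A₀ ^ 2) : h0 ≤ h := by
  by_contra hcon
  push Not at hcon
  have h3 : h0 ≤ A₀ := by
    by_contra h4
    push Not at h4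
    nlinarith [mul_nonneg hh0 hB]
  have h4 : h * (A + B) < h0 * (A + B) := mul_lt_mul_of_pos_right hcon (by linarith)
  have h5 : (A - A₀) * h0 ≤ (A - A₀) * (A + A₀) :=
    mul_le_mul_of_nonneg_left (by linarith) (by linarith)
  nlinarith

/-- **N3** -/
theorem t_N3 : S_N1 → S_N2 → S_N3 := by
  rintro ⟨δ, η, hδ, hδ1, hη, u₀, hN1⟩ hN2
  refine ⟨δ, hδ, hδ1, fun ε hε => ?_⟩
  obtain ⟨C, u₁, hN2⟩ := hN2 δ hδ
  have hcast : Tendsto (fun N : ℕ => (N : ℝ)) atTop atTop := tendsto_natCast_atTop_atTop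
  have ev1 : ∀ᶠ u : ℕ in atTop, 2 / η ≤ (u : ℝ) ^ ε :=
    ((tendsto_rpow_atTop hε).comp hcast).eventually_ge_atTop _
  have ev2 : ∀ᶠ u : ℕ in atTop, C * Real.log u ^ C ≤ η ^ 2 / 2 * (u : ℝ) ^ (2 * ε) := by
    have h := (isLittleO_log_rpow_rpow_atTop (C : ℝ) (show 0 < 2 * ε by positivity)).bound
      (show 0 < η ^ 2 / 2 / (C + 1) by positivity)
    have h' := hcast.eventually h
    filter_upwards [h', eventually_ge_atTop 1] with u hu hu1
    have hl : 0 ≤ Real.log (u : ℝ) := Real.log_natCast_nonneg u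
    rw [Real.rpow_natCast, Real.norm_of_nonneg (by positivity), Real.norm_of_nonneg (by positivity)] at hu
    have hC : (0 : ℝ) ≤ C := Nat.cast_nonneg C
    calc C * Real.log u ^ C ≤ (C + 1) * Real.log u ^ C := by
          apply mul_le_mul_of_nonneg_right (by linarith) (by positivity)
      _ ≤ (C + 1) * (η ^ 2 / 2 / (C + 1) * (u : ℝ) ^ (2 * ε)) :=
          mul_le_mul_of_nonneg_left hu (by positivity)
      _ = η ^ 2 / 2 * (u : ℝ) ^ (2 * ε) := by
          field_simp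
  obtain ⟨u₂, hu₂⟩ := (ev1.and ev2).exists_forall_of_atTop
  refine ⟨max (max u₀ u₁) (max u₂ 1), ?_⟩
  intro u H hu hH1 hH2 S hS hcard
  have hu0 : u₀ ≤ u := le_trans (le_trans (le_max_left _ _) (le_max_left _ _)) hu
  have hu1 : u₁ ≤ u := le_trans (le_trans (le_max_right _ _) (le_max_left _ _)) hu
  have hu2 : u₂ ≤ u := le_trans (le_trans (le_max_left _ _) (le_max_right _ _)) hu
  have hu3 : 1 ≤ u := le_trans (le_trans (le_max_right _ _) (le_max_right _ _)) hu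
  obtain ⟨f1, f2⟩ := hu₂ u hu2
  have hup : (0 : ℝ) < u := by exact_mod_cast hu3
  have hH0 : (0 : ℝ) < H := lt_of_lt_of_le (by positivity) hH1
  obtain ⟨k, hk⟩ : ∃ k : ℝ, k = S.card := ⟨_, rfl⟩
  rw [← hk] at hcard
  have hk0 : 0 < k := lt_of_lt_of_le (by positivity) hcard
  obtain ⟨P, hP⟩ : ∃ P : ℝ, P = (u : ℝ) ^ ε := ⟨_, rfl⟩
  have hP0 : 0 < P := by
    rw [hP]
    positivity
  have hP2 : (u : ℝ) ^ (2 * ε) = P ^ 2 := by
    rw [hP, mul_comm 2 ε, Real.rpow_mul hup.le, Real.rpow_two]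
  have hL0 : 0 ≤ Real.log (u : ℝ) := Real.log_natCast_nonneg u
  obtain ⟨L, hL⟩ : ∃ L : ℝ, L = C * Real.log u ^ C := ⟨_, rfl⟩
  have hL1 : 0 ≤ L := by
    rw [hL]
    positivity
  rw [hP2, ← hL] at f2
  rw [← hP] at f1
  have hB0 : 0 ≤ L * H / (u : ℝ) ^ 2 := by positivity
  have key := cs u H S (L * H / (u : ℝ) ^ 2) hB0 (fun s hs s' hs' hne => by
    rw [hL]
    exact hN2 u H s s' hu1 hH1 hH2 (hS s hs) (hS s' hs') hne)
  have hA : k * (η * H / u) ≤ ∑ s ∈ S, ((hit u H {s}).card : ℝ) := by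
    rw [hk, ← nsmul_eq_mul, ← Finset.sum_const]
    apply Finset.sum_le_sum
    intro s hs
    exact hN1 u H s hu0 hH1 hH2 (hS s hs)
  rw [← hk] at key
  obtain ⟨r, hr⟩ : ∃ r : ℝ, r = k / u := ⟨_, rfl⟩
  have hr0 : 0 < r := by
    rw [hr]
    positivity
  have hrP : 1 ≤ r * P := by
    rw [hr, hP, div_mul_eq_mul_div, le_div_iff₀ hup, one_mul]
    calc (u : ℝ) = (u : ℝ) ^ (1 - ε) * (u : ℝ) ^ ε := by
          rw [← Real.rpow_add hup]
          norm_num
      _ ≤ k * (u : ℝ) ^ ε := mul_le_mul_of_nonneg_right hcard (by positivity)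
  have eA : k * (η * H / u) = r * η * H := by
    rw [hr]
    ring
  have eB : k ^ 2 * (L * H / (u : ℝ) ^ 2) = r ^ 2 * L * H := by
    rw [hr]
    ring
  rw [eA] at hA
  rw [eB] at key
  have hgoal : (H : ℝ) * (u : ℝ) ^ (-(2 * ε)) = H / P ^ 2 := by
    rw [Real.rpow_neg hup.le, hP2]
    rfl
  rw [hgoal]
  refine fin_ineq _ (r * η * H) (r ^ 2 * L * H) _ _ hA (by positivity) (by positivity) (by positivity) key ?_
  -- numeric claim
  rw [div_mul_eq_mul_div, div_le_iff₀ (by positivity)]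
  have g1 : η * P ≤ η ^ 2 / 2 * P ^ 2 := by
    rw [div_le_iff₀ hη] at f1
    have := mul_le_mul_of_nonneg_right f1 (show 0 ≤ η * P / 2 by positivity)
    calc η * P = 2 * (η * P / 2) := by ring
      _ ≤ P * η * (η * P / 2) := this
      _ = η ^ 2 / 2 * P ^ 2 := by ring
  have g2 : η + r * L ≤ r * η ^ 2 * P ^ 2 := by
    have g3 : η ≤ η * (r * P) := by
      have := mul_le_mul_of_nonneg_left hrP hη.le
      linarith
    have g4 : r * (η * P + L) ≤ r * (η ^ 2 * P ^ 2) := mul_le_mul_of_nonneg_left (by linarith) hr0.le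
    calc η + r * L ≤ η * (r * P) + r * L := by linarith
      _ = r * (η * P + L) := by ring
      _ ≤ r * (η ^ 2 * P ^ 2) := g4
      _ = r * η ^ 2 * P ^ 2 := by ring
  calc (H : ℝ) * (r * η * H + r ^ 2 * L * H) = (r * H ^ 2) * (η + r * L) := by ring
    _ ≤ (r * H ^ 2) * (r * η ^ 2 * P ^ 2) := mul_le_mul_of_nonneg_left g2 (by positivity)
    _ = (r * η * H) ^ 2 * P ^ 2 := by ring

end Pool.Agent.D0H42.PW
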