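import Pool.Agent.D0H86.PW.Stm
import Pool.Agent.D0H42.PW.N3

/-! Project PW (helper86), module N1: primes in short intervals, from Hoheisel's theorem. -/

set_option autoImplicit false

namespace Pool.Agent.D0H42.PW

open Finset Filter
open Pool.Agent.D0H86.PW

/-- the theorem of Hoheisel -/
def HH : Prop := ∃ δ η : ℝ, 0 < δ ∧ δ < 1 ∧ 0 < η ∧ ∃ X₀ : ℕ, 2 ≤ X₀ ∧
  ∀ X Y : ℕ, X₀ ≤ X → (X : ℝ) ^ (1 - δ) ≤ Y → Y ≤ X →
    η * Y / Real.log X ≤ (((Ioc X (X + Y)).filter Nat.Prime).card : ℝ)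

theorem n1_of (hH : HH) : S_N1 := by
  classical
  obtain ⟨δ₀, η₀, hδ0, hδ1, hη0, X₀, hX₀, hH⟩ := hH
  refine ⟨1 - δ₀ / 2, η₀ / 4, by linarith, by linarith, by positivity, max (max X₀ 2) (⌈6 / δ₀⌉₊), ?_⟩
  intro u H s hu hH1 hH2 hs
  have hu1 : X₀ ≤ u := le_trans (le_trans (le_max_left _ _) (le_max_left _ _)) hu
  have hu2 : 2 ≤ u := le_trans (le_trans (le_max_right _ _) (le_max_left _ _)) hu
  have hu3 : 6 / δ₀ ≤ u := (Nat.le_ceil _).trans (by exact_mod_cast le_trans (le_max_right _ _) hu)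
  have hup : (0 : ℝ) < u := by
    have : (2 : ℝ) ≤ u := by exact_mod_cast hu2
    linarith
  have h2u : u < 2 ^ u := Nat.lt_two_pow_self
  obtain ⟨X, hX⟩ : ∃ X, X = 2 ^ u + s := ⟨_, rfl⟩
  have hXle : X ≤ 2 ^ (u + 2) := by
    rw [hX]
    have e1 : 2 ^ (u + 2) = 4 * 2 ^ u := by ring
    have e2 : 2 ^ (u + 1) = 2 * 2 ^ u := by ring
    omega
  have hXge : 2 ^ u ≤ X := by omega
  -- `5 * 2 ^ ((1 - δ₀) u) ≤ H`
  have a1 : (5 : ℝ) * (2 : ℝ) ^ ((1 - δ₀) * u) ≤ H := by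
    refine le_trans ?_ hH1
    have e : (1 - δ₀ / 2) * (u : ℝ) = (1 - δ₀) * u + δ₀ * u / 2 := by ring
    rw [e, Real.rpow_add (by norm_num), mul_comm (5 : ℝ)]
    apply mul_le_mul_of_nonneg_left _ (by positivity)
    have h3 : (3 : ℝ) ≤ δ₀ * u / 2 := by
      rw [div_le_iff₀ hδ0] at hu3
      linarith
    calc (5 : ℝ) ≤ (2 : ℝ) ^ (3 : ℝ) := by
          rw [show (3 : ℝ) = ((3 : ℕ) : ℝ) by norm_num, Real.rpow_natCast]
          norm_num
      _ ≤ (2 : ℝ) ^ (δ₀ * u / 2) := Real.rpow_le_rpow_of_exponent_le (by norm_num) h3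
  have hpos1 : (1 : ℝ) ≤ (2 : ℝ) ^ ((1 - δ₀) * u) := by
    apply Real.one_le_rpow (by norm_num)
    have : 0 < 1 - δ₀ := by linarith
    positivity
  have hH5 : (5 : ℝ) ≤ H := by linarith
  have hH5' : 5 ≤ H := by exact_mod_cast hH5
  have a2 : (X : ℝ) ^ (1 - δ₀) ≤ 4 * (2 : ℝ) ^ ((1 - δ₀) * u) := by
    have hXr : (X : ℝ) ≤ (2 : ℝ) ^ ((u : ℝ) + 2) := by
      have : (X : ℝ) ≤ ((2 ^ (u + 2) : ℕ) : ℝ) := by exact_mod_cast hXle
      refine this.trans (le_of_eq ?_)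
      push_cast
      rw [← Real.rpow_natCast]
      push_cast
      rfl
    calc (X : ℝ) ^ (1 - δ₀) ≤ ((2 : ℝ) ^ ((u : ℝ) + 2)) ^ (1 - δ₀) :=
          Real.rpow_le_rpow (Nat.cast_nonneg _) hXr (by linarith)
      _ = (2 : ℝ) ^ (((u : ℝ) + 2) * (1 - δ₀)) := by rw [← Real.rpow_mul (by norm_num)]
      _ ≤ (2 : ℝ) ^ (2 + (1 - δ₀) * u) := by
          apply Real.rpow_le_rpow_of_exponent_le (by norm_num)
          nlinarith
      _ = 4 * (2 : ℝ) ^ ((1 - δ₀) * u) := by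
          rw [Real.rpow_add (by norm_num)]
          norm_num
  obtain ⟨Y, hY⟩ : ∃ Y, Y = H - 1 := ⟨_, rfl⟩
  have hYr : (Y : ℝ) = H - 1 := by
    rw [hY, Nat.cast_sub (by omega)]
    norm_num
  have b1 : (X : ℝ) ^ (1 - δ₀) ≤ Y := by
    rw [hYr]
    linarith
  have b2 : Y ≤ X := by omega
  have hc := hH X Y (by omega) b1 b2
  -- the primes give elements of `hit`
  have hcard : ((Ioc X (X + Y)).filter Nat.Prime).card ≤ (hit u H {s}).card := by
    rw [hit_single]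
    apply Finset.card_le_card_of_injOn (fun p => p - s)
    · intro p hp
      rw [Finset.mem_coe, Finset.mem_filter, Finset.mem_Ioc] at hp
      rw [Finset.mem_coe, Finset.mem_filter, Finset.mem_Ico]
      have e : p - s + s = p := by omega
      change (2 ^ u ≤ p - s ∧ p - s < 2 ^ u + H) ∧ (p - s + s).Prime
      refine ⟨⟨by omega, by omega⟩, ?_⟩
      rw [e]
      exact hp.2
    · intro p hp q hq h
      rw [Finset.mem_coe, Finset.mem_filter, Finset.mem_Ioc] at hp hq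
      have h' : p - s = q - s := h
      omega
  have hcard' : (((Ioc X (X + Y)).filter Nat.Prime).card : ℝ) ≤ (hit u H {s}).card := by
    exact_mod_cast hcard
  refine le_trans ?_ (hc.trans hcard')
  have hXpos : (1 : ℝ) < X := by
    have : 2 ≤ X := by omega
    have : (2 : ℝ) ≤ X := by exact_mod_cast this
    linarith
  have hlog0 : 0 < Real.log X := Real.log_pos hXpos
  have hlog : Real.log X ≤ 2 * u := by
    have h1 : Real.log X ≤ Real.log ((2 : ℝ) ^ (u + 2)) := by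
      apply Real.log_le_log (by linarith)
      exact_mod_cast hXle
    rw [Real.log_pow] at h1
    have h2 := Real.log_two_lt_d9
    have h3 : (2 : ℝ) ≤ u := by exact_mod_cast hu2
    push_cast at h1
    nlinarith
  have hY2 : (H : ℝ) / 2 ≤ Y := by
    rw [hYr]
    linarith
  calc η₀ / 4 * H / u = η₀ * (H / 2) / (2 * u) := by
        field_simp
        ring
    _ ≤ η₀ * Y / Real.log X := by
        apply div_le_div₀ _ _ hlog0 hlog
        · positivity
        · exact mul_le_mul_of_nonneg_left hY2 hη0.le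

end Pool.Agent.D0H42.PW
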