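import Pool.Agent.H295R3.Hoheisel
import Pool.Agent.D0H42.PW.N1c

/-! Project PW (helper86), module N1: primes in short intervals. -/

set_option autoImplicit false

namespace Pool.Agent.D0H42.PW

open Pool.Agent.D0H86.PW

/-- **N1** -/
theorem t_N1 : S_N1 := n1_of Pool.Agent.H295R3.D.hoheisel

end Pool.Agent.D0H42.PW
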